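import Mathlib

-- merged part: Pool.Agent.Lib.Interlace.Det
section
/-! Principal minors, written as determinants of identity-padded matrices. -/

set_option linter.unusedSectionVars false
set_option linter.unusedSimpArgs false

open Matrix

namespace Pool.Agent.Lib.Interlace

variable {V : Type*} [Fintype V] [DecidableEq V]

/-- The principal submatrix on `H`, padded by the identity outside `H`. -/
def pad (M : Matrix V V ℂ) (H : Finset V) : Matrix V V ℂ :=
  Matrix.of fun i j => if i ∈ H ∧ j ∈ H then M i j else if i = j then 1 else 0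

lemma pad_apply (M : Matrix V V ℂ) (H : Finset V) (i j : V) :
    pad M H i j = if i ∈ H ∧ j ∈ H then M i j else if i = j then 1 else 0 := rfl

lemma pad_univ (M : Matrix V V ℂ) : pad M Finset.univ = M := by
  ext i j; simp [pad_apply]

lemma pad_empty (M : Matrix V V ℂ) : pad M ∅ = 1 := by
  ext i j; simp [pad_apply, Matrix.one_apply]

lemma det_clear (M N : Matrix V V ℂ) (u : V) (hN : N u = Pi.single u 1) (hM : M u = N u)
    (h : ∀ i j, j ≠ u → M i j = N i j) : M.det = N.det := by
  apply det_eq_of_forall_row_eq_smul_add_const (fun i => M i u - N i u) u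
  · rw [hM]; simp
  · intro i j
    by_cases hj : j = u
    · subst hj; rw [hN]; simp
    · rw [hN, h i j hj]; simp [hj]

lemma det_update_single (M : Matrix V V ℂ) (H : Finset V) (u : V) :
    (updateRow (pad M H) u (Pi.single u 1)).det = (pad M (H.erase u)).det := by
  apply det_clear _ _ u
  · ext j
    simp [pad_apply, Pi.single_apply, eq_comm]
  · ext j
    simp [pad_apply, Pi.single_apply, eq_comm]
  · intro i j hj
    by_cases hi : i = u
    · subst hi
      simp [pad_apply, Pi.single_apply, hj, Ne.symm hj]
    · simp [updateRow_ne hi, pad_apply, hi, hj]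

lemma det_pad_add_diag (M : Matrix V V ℂ) (H : Finset V) (u : V) (hu : u ∈ H) (t : ℂ) :
    (pad (M + Matrix.diagonal (Pi.single u t)) H).det
      = (pad M H).det + t * (pad M (H.erase u)).det := by
  have e : pad (M + Matrix.diagonal (Pi.single u t)) H
      = updateRow (pad M H) u (pad M H u + t • Pi.single u 1) := by
    ext i j
    by_cases hi : i = u
    · subst hi
      by_cases hj : i = j
      · subst hj; simp [pad_apply, hu]
      · simp [pad_apply, hj, Ne.symm hj]
    · by_cases hj : i = j
      · subst hj; simp [updateRow_ne hi, pad_apply, hi]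
      · simp [updateRow_ne hi, pad_apply, hj]
  rw [e, det_updateRow_add, det_updateRow_smul, updateRow_eq_self, det_update_single]

lemma pad_add_diag_of_notMem (M : Matrix V V ℂ) (H : Finset V) (u : V) (hu : u ∉ H) (t : ℂ) :
    pad (M + Matrix.diagonal (Pi.single u t)) H = pad M H := by
  ext i j
  by_cases h : i ∈ H ∧ j ∈ H
  · have hi : i ≠ u := fun e => hu (e ▸ h.1)
    by_cases hj : i = j
    · subst hj; simp [pad_apply, hi]
    · simp [pad_apply, hj]
  · simp [pad_apply, h]

/-- The symmetric elementary matrix of the pair `a, b`. -/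
def edgeMat (a b : V) : Matrix V V ℂ :=
  Matrix.of fun i j => if (i = a ∧ j = b) ∨ (i = b ∧ j = a) then 1 else 0

lemma edgeMat_apply (a b i j : V) :
    edgeMat a b i j = if (i = a ∧ j = b) ∨ (i = b ∧ j = a) then 1 else 0 := rfl

lemma pad_add_edge_of_not (M : Matrix V V ℂ) (H : Finset V) (a b : V) (h : ¬ (a ∈ H ∧ b ∈ H))
    (s : ℂ) : pad (M + s • edgeMat a b) H = pad M H := by
  ext i j
  by_cases h' : i ∈ H ∧ j ∈ H
  · have : ¬ ((i = a ∧ j = b) ∨ (i = b ∧ j = a)) := by
      rintro (⟨rfl, rfl⟩ | ⟨rfl, rfl⟩)
      · exact h h'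
      · exact h h'.symm
    simp [pad_apply, edgeMat_apply, this]
  · simp [pad_apply, h']

lemma det_pad_add_edge (M : Matrix V V ℂ) (H : Finset V) (a b : V) (hab : a ≠ b) (ha : a ∈ H)
    (hb : b ∈ H) : ∃ c : ℂ, ∀ s : ℂ, (pad (M + s • edgeMat a b) H).det
      = (pad M H).det + s * c - s ^ 2 * (pad M ((H.erase a).erase b)).det := by
  set P := pad M H with hP
  let φ : (V → ℂ) → (V → ℂ) → ℂ := fun r r' => (updateRow (updateRow P a r) b r').det
  have φ2 : ∀ r r' q (s : ℂ), φ r (r' + s • q) = φ r r' + s * φ r q := by
    intro r r' q s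
    simp only [φ]
    rw [det_updateRow_add, det_updateRow_smul]
  have φ1 : ∀ r r' q (s : ℂ), φ (r + s • q) r' = φ r r' + s * φ q r' := by
    intro r r' q s
    simp only [φ]
    rw [updateRow_comm _ hab, det_updateRow_add, det_updateRow_smul, updateRow_comm _ hab,
      updateRow_comm _ hab]
  have h0 : φ (P a) (P b) = P.det := by
    simp only [φ]
    rw [updateRow_eq_self, updateRow_eq_self]
  have hswap : φ (Pi.single b 1) (Pi.single a 1) = - φ (Pi.single a 1) (Pi.single b 1) := by
    simp only [φ]
    have : updateRow (updateRow P a (Pi.single b 1)) b (Pi.single a 1)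
        = (updateRow (updateRow P a (Pi.single a 1)) b (Pi.single b 1)).submatrix
          (Equiv.swap a b) id := by
      ext i j
      by_cases hia : i = a
      · subst hia
        simp [updateRow_ne hab]
      · by_cases hib : i = b
        · subst hib
          simp [updateRow_ne hab]
        · simp [updateRow_ne hia, updateRow_ne hib, Equiv.swap_apply_of_ne_of_ne hia hib]
    rw [this, det_permute, Equiv.Perm.sign_swap hab]
    simp
  have hdiag : φ (Pi.single a 1) (Pi.single b 1) = (pad M ((H.erase a).erase b)).det := by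
    rw [← det_update_single]
    simp only [φ]
    apply det_clear _ _ a
    · ext j
      simp [updateRow_ne hab, pad_apply, Pi.single_apply, eq_comm]
    · ext j
      simp [updateRow_ne hab, pad_apply, Pi.single_apply, eq_comm]
    · intro i j hj
      by_cases hib : i = b
      · subst hib; simp
      · by_cases hia : i = a
        · subst hia
          simp [updateRow_ne hib, pad_apply, hj, Ne.symm hj]
        · simp [updateRow_ne hib, updateRow_ne hia, hP, pad_apply, hia, hj]
  refine ⟨φ (Pi.single b 1) (P b) + φ (P a) (Pi.single a 1), fun s => ?_⟩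
  have e : pad (M + s • edgeMat a b) H
      = updateRow (updateRow P a (P a + s • Pi.single b 1)) b (P b + s • Pi.single a 1) := by
    ext i j
    by_cases hib : i = b
    · subst hib
      by_cases hj : j = a
      · subst hj; simp [hP, pad_apply, edgeMat_apply, ha, hb]
      · simp [hP, pad_apply, edgeMat_apply, hj, Ne.symm hab]
    · by_cases hia : i = a
      · subst hia
        by_cases hj : j = b
        · subst hj; simp [updateRow_ne hib, hP, pad_apply, edgeMat_apply, ha, hb]
        · simp [updateRow_ne hib, hP, pad_apply, edgeMat_apply, hj, hab]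
      · simp [updateRow_ne hib, updateRow_ne hia, hP, pad_apply, edgeMat_apply, hia, hib]
  rw [e]
  change φ _ _ = _
  rw [φ1, φ2, φ2, h0, hswap, hdiag]
  ring

lemma pad_isHermitian {M : Matrix V V ℂ} (hM : M.IsHermitian) (H : Finset V) :
    (pad M H).IsHermitian := by
  ext i j
  rw [conjTranspose_apply, pad_apply, pad_apply]
  by_cases h : i ∈ H ∧ j ∈ H
  · rw [if_pos h, if_pos h.symm]
    exact hM.apply i j
  · rw [if_neg h, if_neg (fun h' => h h'.symm)]
    by_cases hij : i = j
    · simp [hij]
    · simp [hij, Ne.symm hij]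

lemma det_im_of_isHermitian {M : Matrix V V ℂ} (hM : M.IsHermitian) : M.det.im = 0 := by
  have h := det_conjTranspose M
  rw [hM.eq] at h
  exact Complex.conj_eq_iff_im.1 h.symm

lemma det_ne_zero_of_im_pos {B : Matrix V V ℂ} (hB : B.IsHermitian) (y : V → ℂ)
    (hy : ∀ v, 0 < (y v).im) (H : Finset V) : (pad (Matrix.diagonal y + B) H).det ≠ 0 := by
  intro h0
  obtain ⟨f, hf, hMf⟩ := exists_mulVec_eq_zero_iff.2 h0
  have hout : ∀ i, i ∉ H → f i = 0 := by
    intro i hi
    have := congrFun hMf i
    simpa [Matrix.mulVec, dotProduct, pad_apply, hi] using this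
  have hsplit : pad (Matrix.diagonal y + B) H
      = Matrix.diagonal (fun i => if i ∈ H then y i else 0) + pad B H := by
    ext i j
    by_cases hij : i = j
    · subst hij
      by_cases hi : i ∈ H <;> simp [pad_apply, hi]
    · simp [pad_apply, hij]
  have h1 : star f ⬝ᵥ (pad (Matrix.diagonal y + B) H *ᵥ f) = 0 := by rw [hMf]; simp
  rw [hsplit, add_mulVec, dotProduct_add] at h1
  have h2 : (star f ⬝ᵥ (pad B H *ᵥ f)).im = 0 := by
    have := (pad_isHermitian hB H).im_star_dotProduct_mulVec_self f
    simpa using this
  have h3 : (star f ⬝ᵥ (Matrix.diagonal (fun i => if i ∈ H then y i else 0) *ᵥ f)).im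
      = ∑ i, (y i).im * Complex.normSq (f i) := by
    simp only [dotProduct, mulVec_diagonal, Complex.im_sum]
    apply Finset.sum_congr rfl
    intro i _
    by_cases hi : i ∈ H
    · simp [hi, Complex.normSq_apply]; ring
    · simp [hi, hout i hi]
  have h4 : ∑ i, (y i).im * Complex.normSq (f i) = 0 := by
    have := congrArg Complex.im h1
    rw [Complex.add_im, h2, h3] at this
    simpa using this
  rw [Finset.sum_eq_zero_iff_of_nonneg
    (fun i _ => mul_nonneg (hy i).le (Complex.normSq_nonneg _))] at h4
  apply hf
  ext i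
  have := h4 i (Finset.mem_univ i)
  rcases mul_eq_zero.1 this with h | h
  · exact absurd h (hy i).ne'
  · exact Complex.normSq_eq_zero.1 h

end Pool.Agent.Lib.Interlace
end

-- merged part: Pool.Agent.Lib.Interlace.Signing
section
/-! Stable multiaffine families and the existence of a good signing
(an elementary form of the interlacing families method of Marcus, Spielman and Srivastava). -/

set_option linter.unusedSectionVars false
set_option linter.unusedSimpArgs false

open Matrix

namespace Pool.Agent.Lib.Interlace

variable {V : Type*} [Fintype V] [DecidableEq V]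

/-- A family of functions of vertex variables, one for each vertex set. -/
abbrev Fam (V : Type*) := Finset V → (V → ℂ) → ℂ

/-- Principal minors of `diag y + B`. -/
def base (B : Matrix V V ℂ) : Fam V := fun H y => (pad (Matrix.diagonal y + B) H).det

/-- The operator `1 - ∂_a ∂_b`. -/
def T (a b : V) (F : Fam V) : Fam V := fun H y =>
  F H y - if a ∈ H ∧ b ∈ H then F ((H.erase a).erase b) y else 0

/-- The composite of the operators `T` along a list of pairs (head innermost). -/
def TL : List (V × V) → Fam V → Fam V
  | [], F => F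
  | e :: R, F => TL R (T e.1 e.2 F)

structure Good (F : Fam V) : Prop where
  aff_in : ∀ H y u t, u ∈ H → F H (y + Pi.single u t) = F H y + t * F (H.erase u) y
  aff_out : ∀ H y u t, u ∉ H → F H (y + Pi.single u t) = F H y
  stab : ∀ H y, (∀ v, 0 < (y v).im) → F H y ≠ 0
  cont : ∀ H, Continuous (F H)
  real : ∀ H (y : V → ℝ), (F H (fun v => (y v : ℂ))).im = 0

lemma good_base {B : Matrix V V ℂ} (hB : B.IsHermitian) : Good (base B) where
  aff_in H y u t hu := by
    unfold base
    rw [← det_pad_add_diag _ _ _ hu, add_right_comm, diagonal_add]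
    rfl
  aff_out H y u t hu := by
    unfold base
    rw [← pad_add_diag_of_notMem (Matrix.diagonal y + B) H u hu t, add_right_comm, diagonal_add]
    rfl
  stab H y hy := det_ne_zero_of_im_pos hB y hy H
  cont H := by
    unfold base
    apply Continuous.matrix_det
    apply continuous_matrix
    intro i j
    simp only [pad_apply, Matrix.add_apply, diagonal_apply]
    split_ifs <;> fun_prop
  real H y := by
    apply det_im_of_isHermitian
    apply pad_isHermitian
    apply IsHermitian.add _ hB
    rw [isHermitian_diagonal_iff]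
    intro i
    simp [IsSelfAdjoint]

lemma Good.ratio {F : Fam V} (hF : Good F) {H : Finset V} {y : V → ℂ} (hy : ∀ v, 0 < (y v).im)
    {u : V} (hu : u ∈ H) : 0 < (F H y / F (H.erase u) y).im := by
  by_contra hneg
  push Not at hneg
  have hne := hF.stab (H.erase u) y hy
  apply hF.stab H (y + Pi.single u (-(F H y / F (H.erase u) y)))
  · intro v
    by_cases hv : v = u
    · subst hv
      have := hy v
      simp only [Pi.add_apply, Pi.single_eq_same, Complex.add_im, Complex.neg_im]
      linarith
    · simpa [Pi.single_apply, hv] using hy v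
  · rw [hF.aff_in _ _ _ _ hu]
    field_simp
    ring

lemma Good.T {F : Fam V} (hF : Good F) {a b : V} (hab : a ≠ b) : Good (T a b F) where
  aff_in H y u t hu := by
    unfold Interlace.T
    rw [hF.aff_in _ _ _ _ hu]
    by_cases h : a ∈ H ∧ b ∈ H
    · rw [if_pos h, if_pos h]
      by_cases hua : u = a
      · subst hua
        rw [hF.aff_out _ _ _ _ (by simp), if_neg (by simp)]
        ring
      · by_cases hub : u = b
        · subst hub
          rw [hF.aff_out _ _ _ _ (by simp), if_neg (by simp)]
          ring
        · rw [hF.aff_in _ _ _ _ (by simp [hu, hua, hub]),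
            if_pos (by simp [h.1, h.2, Ne.symm hua, Ne.symm hub])]
          have : ((H.erase a).erase b).erase u = ((H.erase u).erase a).erase b := by
            ext; simp only [Finset.mem_erase]; tauto
          rw [this]
          ring
    · rw [if_neg h, if_neg h, if_neg (by simp only [Finset.mem_erase]; tauto)]
      ring
  aff_out H y u t hu := by
    unfold Interlace.T
    rw [hF.aff_out _ _ _ _ hu, hF.aff_out _ _ _ _ (by simp [hu])]
  stab H y hy := by
    unfold Interlace.T
    by_cases h : a ∈ H ∧ b ∈ H
    · rw [if_pos h]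
      have r1 := hF.ratio hy h.1
      have r2 := hF.ratio hy (H := H.erase a) (u := b) (by simp [h.2, Ne.symm hab])
      intro h0
      have e : F H y = F ((H.erase a).erase b) y := sub_eq_zero.1 h0
      rw [← e] at r2
      rw [← inv_div, Complex.inv_im] at r1
      have := Complex.normSq_nonneg (F (H.erase a) y / F H y)
      have h3 : 0 ≤ (F (H.erase a) y / F H y).im / Complex.normSq (F (H.erase a) y / F H y) :=
        div_nonneg r2.le this
      rw [neg_div] at r1
      linarith
    · rw [if_neg h, sub_zero]
      exact hF.stab H y hy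
  cont H := by
    unfold Interlace.T
    have h1 := hF.cont H
    have h2 := hF.cont ((H.erase a).erase b)
    split_ifs <;> fun_prop
  real H y := by
    unfold Interlace.T
    rw [Complex.sub_im, hF.real]
    split_ifs
    · rw [hF.real]; simp
    · simp

lemma Good.TL (R : List (V × V)) (hR : ∀ e ∈ R, e.1 ≠ e.2) {F : Fam V} (hF : Good F) :
    Good (TL R F) := by
  induction R generalizing F with
  | nil => exact hF
  | cons e R ih =>
    exact ih (fun e' he' => hR e' (List.mem_cons_of_mem _ he')) (hF.T (hR e List.mem_cons_self))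

/-- The Rayleigh inequality at real points. -/
lemma Good.rayleigh {F : Fam V} (hF : Good F) (y : V → ℝ) {H : Finset V} {u w : V}
    (hu : u ∈ H) (hw : w ∈ H) (huw : u ≠ w) :
    (F H (fun v => (y v : ℂ))).re * (F ((H.erase u).erase w) (fun v => (y v : ℂ))).re
      ≤ (F (H.erase u) (fun v => (y v : ℂ))).re * (F (H.erase w) (fun v => (y v : ℂ))).re := by
  set y0 : V → ℂ := fun v => (y v : ℂ) with hy0
  let z : ℝ → V → ℂ := fun ε => (fun v => y0 v + (ε : ℂ) * Complex.I) + Pi.single w Complex.I
  have hzc : Continuous z := by
    apply Continuous.add _ continuous_const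
    apply continuous_pi
    intro v
    fun_prop
  let g : ℝ → ℝ := fun ε => (F H (z ε) * (starRingEnd ℂ) (F (H.erase u) (z ε))).im
  have hgc : Continuous g := by
    have h1 := (hF.cont H).comp hzc
    have h2 := (hF.cont (H.erase u)).comp hzc
    exact Complex.continuous_im.comp (h1.mul (Complex.continuous_conj.comp h2))
  have hpos : ∀ ε ∈ Set.Ioi (0 : ℝ), 0 ≤ g ε := by
    intro ε hε
    have hz : ∀ v, 0 < (z ε v).im := by
      intro v
      have hε' : 0 < ε := hε
      by_cases hv : v = w
      · subst hv
        simp [z, hy0]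
        linarith
      · simp [z, hy0, hv, hε']
    have r := hF.ratio hz hu
    have hne := hF.stab (H.erase u) _ hz
    have hn : 0 < Complex.normSq (F (H.erase u) (z ε)) := Complex.normSq_pos.2 hne
    have e : g ε = (F H (z ε) / F (H.erase u) (z ε)).im * Complex.normSq (F (H.erase u) (z ε)) := by
      simp only [g]
      rw [Complex.div_im]
      field_simp
      simp
      ring
    rw [e]
    positivity
  have h0 : 0 ≤ g 0 := by
    have hcl : IsClosed {ε : ℝ | 0 ≤ g ε} := isClosed_le continuous_const hgc
    have : closure (Set.Ioi (0 : ℝ)) ⊆ {ε : ℝ | 0 ≤ g ε} := closure_minimal hpos hcl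
    apply this
    rw [closure_Ioi]
    exact Set.self_mem_Ici
  have hz0 : z 0 = y0 + Pi.single w Complex.I := by
    simp only [z]
    congr 1
    ext v
    simp
  simp only [g] at h0
  rw [hz0, hF.aff_in _ _ _ _ hw, hF.aff_in _ _ _ _ (by simp [hw, Ne.symm huw])] at h0
  have r1 := hF.real H y
  have r2 := hF.real (H.erase u) y
  have r3 := hF.real (H.erase w) y
  have r4 := hF.real ((H.erase u).erase w) y
  simp only [← hy0] at r1 r2 r3 r4
  simp [r1, r2, r3, r4] at h0
  linarith

lemma Good.transfer {F : Fam V} (hF : Good F) (y : V → ℝ) (a : V)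
    (hout : ∀ H, a ∉ H → 0 < (F H (fun v => (y v : ℂ))).re)
    (huniv : 0 < (F Finset.univ (fun v => (y v : ℂ))).re) (H : Finset V) :
    0 < (F H (fun v => (y v : ℂ))).re := by
  have key : ∀ S : Finset V, 0 < (F (Finset.univ \ S) (fun v => (y v : ℂ))).re := by
    intro S
    induction S using Finset.induction_on with
    | empty => simpa using huniv
    | insert w S hw ih =>
      by_cases ha : a ∈ insert w S
      · exact hout _ (by simp only [Finset.mem_sdiff]; tauto)
      · have haw : a ≠ w := fun e => ha (e ▸ Finset.mem_insert_self _ _)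
        have haS : a ∉ S := fun e => ha (Finset.mem_insert_of_mem e)
        have r := hF.rayleigh y (H := Finset.univ \ S) (u := a) (w := w) (by simp [haS])
          (by simp [hw]) haw
        have e : Finset.univ \ insert w S = (Finset.univ \ S).erase w := by
          ext; simp
        rw [e]
        have p1 := hout (((Finset.univ \ S).erase a).erase w) (by simp)
        have p2 := hout ((Finset.univ \ S).erase a) (by simp)
        have p3 := mul_pos ih p1
        by_contra hneg
        push Not at hneg
        have := mul_nonpos_of_nonneg_of_nonpos p2.le hneg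
        linarith
  have := key (Finset.univ \ H)
  simpa using this

lemma TL_congr (R : List (V × V)) {F G : Fam V} (a : V) (y : V → ℂ)
    (h : ∀ H, a ∉ H → F H y = G H y) : ∀ H, a ∉ H → TL R F H y = TL R G H y := by
  induction R generalizing F G with
  | nil => exact h
  | cons e R ih =>
    apply ih
    intro H hH
    unfold T
    rw [h H hH, h _ (by simp [hH])]

lemma TL_avg (R : List (V × V)) {F G K : Fam V} (y : V → ℂ)
    (h : ∀ H, F H y + G H y = 2 * K H y) : ∀ H, TL R F H y + TL R G H y = 2 * TL R K H y := by
  induction R generalizing F G K with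
  | nil => exact h
  | cons e R ih =>
    apply ih
    intro H
    unfold T
    have h1 := h H
    have h2 := h ((H.erase e.1).erase e.2)
    split_ifs
    · linear_combination h1 - h2
    · linear_combination h1

lemma base_avg (B : Matrix V V ℂ) {a b : V} (hab : a ≠ b) (y : V → ℂ) (H : Finset V) :
    base (B + (1 : ℂ) • edgeMat a b) H y + base (B + (-1 : ℂ) • edgeMat a b) H y
      = 2 * T a b (base B) H y := by
  unfold T base
  rw [← add_assoc, ← add_assoc]
  by_cases h : a ∈ H ∧ b ∈ H
  · obtain ⟨c, hc⟩ := det_pad_add_edge (Matrix.diagonal y + B) H a b hab h.1 h.2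
    rw [if_pos h, hc, hc]
    ring
  · rw [if_neg h, pad_add_edge_of_not _ _ _ _ h, pad_add_edge_of_not _ _ _ _ h]
    ring

lemma base_out (B : Matrix V V ℂ) (a b : V) (s : ℂ) (y : V → ℂ) (H : Finset V) (ha : a ∉ H) :
    base (B + s • edgeMat a b) H y = T a b (base B) H y := by
  unfold T base
  have h : ¬ (a ∈ H ∧ b ∈ H) := fun h => ha h.1
  rw [← add_assoc, if_neg h, pad_add_edge_of_not _ _ _ _ h, sub_zero]

lemma isHermitian_add_edge {B : Matrix V V ℂ} (hB : B.IsHermitian) (a b : V) (s : ℝ) :
    (B + (s : ℂ) • edgeMat a b).IsHermitian := by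
  apply hB.add
  ext i j
  simp only [conjTranspose_apply, Matrix.smul_apply, edgeMat_apply, smul_eq_mul]
  by_cases h : (i = a ∧ j = b) ∨ (i = b ∧ j = a)
  · rw [if_pos h, if_pos (by tauto)]; simp
  · rw [if_neg h, if_neg (by tauto)]; simp

/-- One step of the derandomisation. -/
lemma step (R : List (V × V)) (hR : ∀ e ∈ R, e.1 ≠ e.2) {B : Matrix V V ℂ} (hB : B.IsHermitian)
    {a b : V} (hab : a ≠ b) (y : V → ℝ)
    (hpos : ∀ H, 0 < (TL R (T a b (base B)) H (fun v => (y v : ℂ))).re) :
    ∃ s : ℝ, (s = 1 ∨ s = -1) ∧
      ∀ H, 0 < (TL R (base (B + (s : ℂ) • edgeMat a b)) H (fun v => (y v : ℂ))).re := by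
  have havg := TL_avg R (fun v => (y v : ℂ)) (base_avg B hab _) Finset.univ
  have hre := congrArg Complex.re havg
  have hu := hpos Finset.univ
  have : ∃ s : ℝ, (s = 1 ∨ s = -1) ∧
      0 < (TL R (base (B + (s : ℂ) • edgeMat a b)) Finset.univ (fun v => (y v : ℂ))).re := by
    by_contra hno
    push Not at hno
    have h1 := hno 1 (Or.inl rfl)
    have h2 := hno (-1) (Or.inr rfl)
    simp only [Complex.add_re, Complex.mul_re] at hre
    push_cast at h1 h2
    norm_num at hre h1 h2
    linarith
  obtain ⟨s, hs, hs'⟩ := this
  refine ⟨s, hs, ?_⟩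
  apply ((good_base (isHermitian_add_edge hB a b s)).TL R hR).transfer y a _ hs'
  intro H hH
  rw [TL_congr R a _ (base_out B a b s _) H hH]
  exact hpos H

/-- If all averaged principal minors are positive, some signing has all principal minors
positive. -/
theorem exists_signing (R : List (V × V)) (hnd : R.Nodup) (hsw : ∀ e ∈ R, e.swap ∉ R)
    {B : Matrix V V ℂ} (hB : B.IsHermitian) (y : V → ℝ)
    (hpos : ∀ H, 0 < (TL R (base B) H (fun v => (y v : ℂ))).re) :
    ∃ B' : Matrix V V ℂ, B'.IsHermitian ∧
      (∀ H, 0 < (base B' H (fun v => (y v : ℂ))).re) ∧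
      (∀ i j, ¬ ((i, j) ∈ R ∨ (j, i) ∈ R) → B' i j = B i j) ∧
      (∀ i j, ((i, j) ∈ R ∨ (j, i) ∈ R) → B' i j = B i j + 1 ∨ B' i j = B i j - 1) := by
  induction R generalizing B with
  | nil => exact ⟨B, hB, hpos, fun _ _ _ => rfl, fun i j h => by simp at h⟩
  | cons e R ih =>
    obtain ⟨a, b⟩ := e
    have hne : ∀ e ∈ (a, b) :: R, e.1 ≠ e.2 := by
      rintro ⟨i, j⟩ he hij
      simp only at hij
      subst hij
      exact hsw _ he he
    have hab : a ≠ b := hne _ List.mem_cons_self
    have hR : ∀ e ∈ R, e.1 ≠ e.2 := fun e he => hne e (List.mem_cons_of_mem _ he)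
    obtain ⟨s, hs, hs'⟩ := step R hR hB hab y hpos
    obtain ⟨B', h1, h2, h3, h4⟩ := ih (List.nodup_cons.1 hnd).2
      (fun e he h => hsw e (List.mem_cons_of_mem _ he) (List.mem_cons_of_mem _ h))
      (isHermitian_add_edge hB a b s) hs'
    have hab1 : (a, b) ∉ R := (List.nodup_cons.1 hnd).1
    have hab2 : (b, a) ∉ R := fun h => hsw (a, b) List.mem_cons_self (List.mem_cons_of_mem _ h)
    refine ⟨B', h1, h2, ?_, ?_⟩
    · intro i j h
      simp only [List.mem_cons, Prod.mk.injEq] at h
      rw [h3 i j (by tauto)]
      simp only [Matrix.add_apply, Matrix.smul_apply, edgeMat_apply]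
      rw [if_neg (by tauto)]
      simp
    · intro i j h
      by_cases he : (i = a ∧ j = b) ∨ (i = b ∧ j = a)
      · have : ¬ ((i, j) ∈ R ∨ (j, i) ∈ R) := by
          rcases he with ⟨rfl, rfl⟩ | ⟨rfl, rfl⟩ <;> tauto
        rw [h3 i j this]
        simp only [Matrix.add_apply, Matrix.smul_apply, edgeMat_apply]
        rw [if_pos he]
        rcases hs with rfl | rfl
        · left; simp
        · right; simp [sub_eq_add_neg]
      · simp only [List.mem_cons, Prod.mk.injEq] at h
        have h5 := h4 i j (by tauto)
        simp only [Matrix.add_apply, Matrix.smul_apply, edgeMat_apply] at h5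
        rw [if_neg he] at h5
        simpa using h5

/-- Positivity of all members of a multiaffine family survives raising all variables. -/
lemma Good.pos_shift {F : Fam V} (hF : Good F) (y : V → ℂ) (hpos : ∀ H, 0 < (F H y).re)
    (c : ℝ) (hc : 0 ≤ c) (H : Finset V) : 0 < (F H (fun v => y v + c)).re := by
  have key : ∀ S : Finset V, ∀ H, 0 < (F H (fun v => y v + if v ∈ S then (c : ℂ) else 0)).re := by
    intro S
    induction S using Finset.induction_on with
    | empty => simpa using hpos
    | insert w S hw ih =>
      intro H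
      have e : (fun v => y v + if v ∈ insert w S then (c : ℂ) else 0)
          = (fun v => y v + if v ∈ S then (c : ℂ) else 0) + Pi.single w (c : ℂ) := by
        ext v
        by_cases hv : v = w
        · subst hv; simp [hw]
        · simp [hv]
      rw [e]
      by_cases hH : w ∈ H
      · rw [hF.aff_in _ _ _ _ hH]
        have h1 := ih H
        have h2 := mul_nonneg hc (ih (H.erase w)).le
        simp only [Complex.add_re, Complex.mul_re, Complex.ofReal_re, Complex.ofReal_im, zero_mul,
          sub_zero]
        linarith
      · rw [hF.aff_out _ _ _ _ hH]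
        exact ih H
  simpa using key Finset.univ H

end Pool.Agent.Lib.Interlace
end

-- merged part: Pool.Agent.Lib.Interlace.Matching
section
/-! The fully averaged family is a weighted matching polynomial: vertex recurrence and the
Heilmann-Lieb positivity argument. -/

set_option linter.unusedSectionVars false
set_option linter.unusedSimpArgs false

open Matrix

namespace Pool.Agent.Lib.Interlace

variable {V : Type*} [Fintype V] [DecidableEq V]

/-- The vertex recurrence of the matching polynomial with edge weights `W`. -/
def Rec (F : Fam V) (W : Matrix V V ℂ) (y : V → ℂ) : Prop :=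
  F ∅ y = 1 ∧ ∀ H v, v ∈ H →
    F H y = y v * F (H.erase v) y - ∑ u ∈ H.erase v, W v u * F ((H.erase v).erase u) y

lemma rec_base (y : V → ℂ) : Rec (base (0 : Matrix V V ℂ)) 0 y := by
  have key : ∀ H : Finset V, base (0 : Matrix V V ℂ) H y = ∏ v ∈ H, y v := by
    intro H
    unfold base
    have : pad (Matrix.diagonal y + 0) H = Matrix.diagonal (fun i => if i ∈ H then y i else 1) := by
      ext i j
      by_cases hij : i = j
      · subst hij
        by_cases hi : i ∈ H <;> simp [pad_apply, hi]
      · simp [pad_apply, hij]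
    rw [this, det_diagonal, Finset.prod_ite_mem, Finset.univ_inter]
  refine ⟨by rw [key]; simp, fun H v hv => ?_⟩
  rw [key, key, Finset.mul_prod_erase _ _ hv]
  simp

lemma T_of_not {a b : V} {F : Fam V} {H : Finset V} (h : ¬ (a ∈ H ∧ b ∈ H)) (y : V → ℂ) :
    T a b F H y = F H y := by
  unfold T
  rw [if_neg h, sub_zero]

lemma Rec.T {F : Fam V} {W : Matrix V V ℂ} {y : V → ℂ} (h : Rec F W y) {a b : V} (hab : a ≠ b) :
    Rec (T a b F) (W + edgeMat a b) y := by
  refine ⟨by rw [T_of_not (by simp)]; exact h.1, fun H v hv => ?_⟩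
  by_cases hH : a ∈ H ∧ b ∈ H
  · by_cases hva : v = a
    · subst hva
      have e1 : ∀ u ∈ H.erase v, (W + edgeMat v b) v u * Interlace.T v b F ((H.erase v).erase u) y
          = W v u * F ((H.erase v).erase u) y
            + (if u = b then F ((H.erase v).erase u) y else 0) := by
        intro u _
        rw [T_of_not (by simp)]
        by_cases hu : u = b
        · simp [edgeMat_apply, hu]; ring
        · simp [edgeMat_apply, hu, hab]
      rw [Finset.sum_congr rfl e1, Finset.sum_add_distrib, Finset.sum_ite_eq',
        if_pos (by simp [hH.2, Ne.symm hab]), T_of_not (H := H.erase v) (by simp)]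
      unfold Interlace.T
      rw [if_pos hH, h.2 H v hv]
      ring
    · by_cases hvb : v = b
      · subst hvb
        have e1 : ∀ u ∈ H.erase v, (W + edgeMat a v) v u * Interlace.T a v F ((H.erase v).erase u) y
            = W v u * F ((H.erase v).erase u) y
              + (if u = a then F ((H.erase v).erase u) y else 0) := by
          intro u _
          rw [T_of_not (by simp)]
          by_cases hu : u = a
          · simp [edgeMat_apply, hu]; ring
          · simp [edgeMat_apply, hu, hva]
        rw [Finset.sum_congr rfl e1, Finset.sum_add_distrib, Finset.sum_ite_eq',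
          if_pos (by simp [hH.1, hab]), T_of_not (H := H.erase v) (by simp)]
        unfold Interlace.T
        rw [if_pos hH, h.2 H v hv, Finset.erase_right_comm]
        ring
      · have e1 : ∀ u ∈ H.erase v, (W + edgeMat a b) v u * Interlace.T a b F ((H.erase v).erase u) y
            = W v u * F ((H.erase v).erase u) y
              - (if u ∈ ((H.erase a).erase b).erase v then
                  W v u * F ((((H.erase a).erase b).erase v).erase u) y else 0) := by
          intro u hu
          have hW : (W + edgeMat a b) v u = W v u := by simp [edgeMat_apply, hva, hvb]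
          rw [hW]
          by_cases hu' : u ∈ ((H.erase a).erase b).erase v
          · rw [if_pos hu']
            simp only [Finset.mem_erase] at hu'
            unfold Interlace.T
            rw [if_pos (by simp only [Finset.mem_erase]; tauto)]
            have : (((H.erase v).erase u).erase a).erase b
                = (((H.erase a).erase b).erase v).erase u := by
              ext; simp only [Finset.mem_erase]; tauto
            rw [this]
            ring
          · rw [if_neg hu', T_of_not, sub_zero]
            simp only [Finset.mem_erase] at hu hu' ⊢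
            tauto
        rw [Finset.sum_congr rfl e1, Finset.sum_sub_distrib, Finset.sum_ite_mem]
        have e2 : H.erase v ∩ ((H.erase a).erase b).erase v = ((H.erase a).erase b).erase v := by
          ext; simp only [Finset.mem_erase, Finset.mem_inter]; tauto
        rw [e2]
        unfold Interlace.T
        rw [if_pos hH, if_pos (by simp only [Finset.mem_erase]; tauto), h.2 H v hv,
          h.2 ((H.erase a).erase b) v (by simp [hv, hva, hvb])]
        have e3 : ((H.erase v).erase a).erase b = ((H.erase a).erase b).erase v := by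
          ext; simp only [Finset.mem_erase]; tauto
        rw [e3]
        ring
  · have e1 : ∀ u ∈ H.erase v, (W + edgeMat a b) v u * Interlace.T a b F ((H.erase v).erase u) y
        = W v u * F ((H.erase v).erase u) y := by
      intro u hu
      rw [T_of_not (by simp only [Finset.mem_erase]; tauto)]
      have : ¬ ((v = a ∧ u = b) ∨ (v = b ∧ u = a)) := by
        have hu' := Finset.mem_of_mem_erase hu
        rintro (⟨rfl, rfl⟩ | ⟨rfl, rfl⟩)
        · exact hH ⟨hv, hu'⟩
        · exact hH ⟨hu', hv⟩
      simp [edgeMat_apply, this]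
    rw [Finset.sum_congr rfl e1, T_of_not hH, T_of_not (by simp only [Finset.mem_erase]; tauto)]
    exact h.2 H v hv

lemma Rec.TL (R : List (V × V)) (hnd : R.Nodup) (hsw : ∀ e ∈ R, e.swap ∉ R) {F : Fam V}
    {W : Matrix V V ℂ} {y : V → ℂ} (h : Rec F W y) :
    Rec (TL R F) (W + Matrix.of fun i j => if (i, j) ∈ R ∨ (j, i) ∈ R then 1 else 0) y := by
  induction R generalizing F W with
  | nil =>
    have : (W + Matrix.of fun i j => if (i, j) ∈ ([] : List (V × V)) ∨ (j, i) ∈ ([] : List (V × V))
        then (1 : ℂ) else 0) = W := by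
      ext i j; simp
    rw [this]
    exact h
  | cons e R ih =>
    obtain ⟨a, b⟩ := e
    have hab : a ≠ b := by
      intro hij
      subst hij
      exact hsw _ List.mem_cons_self List.mem_cons_self
    have hab1 : (a, b) ∉ R := (List.nodup_cons.1 hnd).1
    have hab2 : (b, a) ∉ R := fun h => hsw (a, b) List.mem_cons_self (List.mem_cons_of_mem _ h)
    have := ih (List.nodup_cons.1 hnd).2
      (fun e he h => hsw e (List.mem_cons_of_mem _ he) (List.mem_cons_of_mem _ h)) (h.T hab)
    suffices e : (W + Matrix.of fun i j =>
          if (i, j) ∈ (a, b) :: R ∨ (j, i) ∈ (a, b) :: R then (1 : ℂ) else 0)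
        = W + edgeMat a b + Matrix.of fun i j => if (i, j) ∈ R ∨ (j, i) ∈ R then 1 else 0 by
      rw [e]; exact this
    ext i j
    simp only [Matrix.add_apply, edgeMat_apply, Matrix.of_apply, List.mem_cons, Prod.mk.injEq]
    by_cases he : (i = a ∧ j = b) ∨ (i = b ∧ j = a)
    · have : ¬ ((i, j) ∈ R ∨ (j, i) ∈ R) := by
        rcases he with ⟨rfl, rfl⟩ | ⟨rfl, rfl⟩ <;> tauto
      rw [if_pos he, if_neg this, if_pos (by tauto)]
      ring
    · rw [if_neg he]
      by_cases h2 : (i, j) ∈ R ∨ (j, i) ∈ R
      · rw [if_pos h2, if_pos (by tauto)]; ring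
      · rw [if_neg h2, if_neg (by tauto)]; ring

/-- Heilmann-Lieb positivity: real form. -/
lemma matching_pos (G : SimpleGraph V) [DecidableRel G.Adj] (f : Finset V → ℝ) (y : V → ℝ)
    (s : ℝ) (hs : 0 < s) (h0 : f ∅ = 1)
    (hrec : ∀ H v, v ∈ H →
      f H = y v * f (H.erase v) - ∑ u ∈ (H.erase v).filter (G.Adj v), f ((H.erase v).erase u))
    (hy1 : ∀ v, (G.degree v : ℝ) < s * y v) (hy2 : ∀ v, s ^ 2 + (G.degree v : ℝ) - 1 ≤ s * y v)
    (H : Finset V) : 0 < f H := by
  have key : ∀ H : Finset V,
      0 < f H ∧ ∀ v ∈ H, (∃ w, w ∉ H ∧ G.Adj v w) → s * f (H.erase v) ≤ f H := by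
    intro H
    induction H using Finset.strongInduction with
    | H H ih =>
      have main : ∀ v ∈ H, 0 < f (H.erase v) ∧
          (s * y v - (((H.erase v).filter (G.Adj v)).card : ℝ)) * f (H.erase v) ≤ s * f H := by
        intro v hv
        obtain ⟨p, q⟩ := ih (H.erase v) (Finset.erase_ssubset hv)
        refine ⟨p, ?_⟩
        have : ∑ u ∈ (H.erase v).filter (G.Adj v), s * f ((H.erase v).erase u)
            ≤ ∑ u ∈ (H.erase v).filter (G.Adj v), f (H.erase v) := by
          apply Finset.sum_le_sum
          intro u hu
          rw [Finset.mem_filter] at hu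
          exact q u hu.1 ⟨v, by simp, hu.2.symm⟩
        rw [← Finset.mul_sum, Finset.sum_const, nsmul_eq_mul] at this
        rw [hrec H v hv]
        nlinarith
      have hsub : ∀ v, (H.erase v).filter (G.Adj v) ⊆ G.neighborFinset v := by
        intro v u hu
        rw [Finset.mem_filter] at hu
        simpa using hu.2
      constructor
      · rcases H.eq_empty_or_nonempty with rfl | ⟨v, hv⟩
        · rw [h0]; exact one_pos
        · obtain ⟨p, q⟩ := main v hv
          have hc : (((H.erase v).filter (G.Adj v)).card : ℝ) ≤ G.degree v := by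
            exact_mod_cast Finset.card_le_card (hsub v)
          have := hy1 v
          have h2 : 0 < (s * y v - (((H.erase v).filter (G.Adj v)).card : ℝ)) * f (H.erase v) :=
            mul_pos (by linarith) p
          exact (mul_pos_iff_of_pos_left hs).1 (lt_of_lt_of_le h2 q)
      · rintro v hv ⟨w, hw, hvw⟩
        obtain ⟨p, q⟩ := main v hv
        have hc : ((H.erase v).filter (G.Adj v)).card < G.degree v := by
          apply Finset.card_lt_card
          refine ⟨hsub v, fun hh => ?_⟩
          have : w ∈ (H.erase v).filter (G.Adj v) := hh (by simpa using hvw)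
          rw [Finset.mem_filter] at this
          exact hw (Finset.mem_of_mem_erase this.1)
        have hc' : (((H.erase v).filter (G.Adj v)).card : ℝ) + 1 ≤ G.degree v := by
          exact_mod_cast hc
        have h2 := hy2 v
        have h3 : s ^ 2 * f (H.erase v)
            ≤ (s * y v - (((H.erase v).filter (G.Adj v)).card : ℝ)) * f (H.erase v) :=
          mul_le_mul_of_nonneg_right (by linarith) p.le
        have h4 : s * (s * f (H.erase v)) ≤ s * f H := by nlinarith
        exact le_of_mul_le_mul_left h4 hs
  exact (key H).1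

/-- For a graph and real vertex weights satisfying the Heilmann-Lieb conditions there is a signing
`B` of the edges with `diag y + B + c` nonsingular for all real `c ≥ 0`. -/
theorem exists_graph_signing (G : SimpleGraph V) [DecidableRel G.Adj] (y : V → ℝ)
    (s : ℝ) (hs : 0 < s)
    (hy1 : ∀ v, (G.degree v : ℝ) < s * y v) (hy2 : ∀ v, s ^ 2 + (G.degree v : ℝ) - 1 ≤ s * y v) :
    ∃ B : Matrix V V ℂ, B.IsHermitian ∧ (∀ i j, ¬ G.Adj i j → B i j = 0) ∧
      (∀ i j, G.Adj i j → B i j = 1 ∨ B i j = -1) ∧
      ∀ c : ℝ, 0 ≤ c → (Matrix.diagonal (fun v => (y v : ℂ) + c) + B).det ≠ 0 := by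
  let φ := Fintype.equivFin V
  let R : List (V × V) :=
    (Finset.univ.filter (fun e : V × V => G.Adj e.1 e.2 ∧ φ e.1 < φ e.2)).toList
  have hmem : ∀ i j, (i, j) ∈ R ↔ G.Adj i j ∧ φ i < φ j := by
    intro i j; simp [R]
  have hnd : R.Nodup := Finset.nodup_toList _
  have hsw : ∀ e ∈ R, e.swap ∉ R := by
    rintro ⟨i, j⟩ h1 h2
    rw [Prod.swap_prod_mk] at h2
    rw [hmem] at h1 h2
    exact lt_asymm h1.2 h2.2
  have hadj : ∀ i j, ((i, j) ∈ R ∨ (j, i) ∈ R) ↔ G.Adj i j := by
    intro i j
    rw [hmem, hmem]
    constructor
    · rintro (h | h)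
      · exact h.1
      · exact h.1.symm
    · intro h
      have : φ i ≠ φ j := fun e => h.ne (φ.injective e)
      rcases lt_or_gt_of_ne this with h' | h'
      · exact Or.inl ⟨h, h'⟩
      · exact Or.inr ⟨h.symm, h'⟩
  have hrec := (rec_base (fun v => (y v : ℂ))).TL R hnd hsw
  have hpos : ∀ H, 0 < (TL R (base (0 : Matrix V V ℂ)) H (fun v => (y v : ℂ))).re := by
    apply matching_pos G _ y s hs _ _ hy1 hy2
    · rw [hrec.1]; simp
    · intro H v hv
      rw [hrec.2 H v hv, Finset.sum_filter]
      simp only [Complex.sub_re, Complex.re_sum, Complex.mul_re, Complex.ofReal_re,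
        Complex.ofReal_im, zero_mul, sub_zero, zero_add, Matrix.of_apply, hadj]
      congr 1
      apply Finset.sum_congr rfl
      intro u _
      split_ifs <;> simp
  obtain ⟨B, h1, h2, h3, h4⟩ := exists_signing R hnd hsw isHermitian_zero y hpos
  refine ⟨B, h1, fun i j h => ?_, fun i j h => ?_, fun c hc h0 => ?_⟩
  · rw [h3 i j (by rw [hadj]; exact h)]; rfl
  · simpa using h4 i j ((hadj i j).2 h)
  · have := (good_base h1).pos_shift _ h2 c hc Finset.univ
    unfold base at this
    rw [pad_univ, h0] at this
    simp at this

end Pool.Agent.Lib.Interlace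
end
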